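import Pool.Agent.Helper31.BQ.Stmts2

/-!
# Sheet BQ, row HO: a selection with small sums
-/

set_option autoImplicit false

namespace Pool.Agent.Helper73.BQ

open Pool.Agent.Helper31.BQ

theorem ho_moment (I O G : Type) [Fintype I] [DecidableEq I] [Fintype O] [Nonempty O] [Fintype G]
    (v : I → O → G → ℝ) (hv : ∀ i o g, |v i o g| ≤ 1) (h0 : ∀ i g, ∑ o, v i o g = 0) (s : ℝ)
    (g : G) : ∑ ω : I → O, Real.exp (s * ∑ i, v i (ω i) g) ≤
      (Fintype.card O : ℝ) ^ Fintype.card I * Real.exp (Fintype.card I * (s ^ 2 / 2)) := by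
  classical
  have e1 : ∑ ω : I → O, Real.exp (s * ∑ i, v i (ω i) g) =
      ∏ i, ∑ o, Real.exp (v i o g * s) := by
    rw [Finset.prod_univ_sum, Fintype.piFinset_univ]
    refine Finset.sum_congr rfl fun ω _ => ?_
    rw [← Real.exp_sum, Finset.mul_sum]
    congr 1
    exact Finset.sum_congr rfl fun i _ => mul_comm _ _
  have e2 : ∀ i, ∑ o, Real.exp (v i o g * s) ≤ (Fintype.card O : ℝ) * Real.exp (s ^ 2 / 2) := by
    intro i
    calc ∑ o, Real.exp (v i o g * s) ≤ ∑ o, (Real.cosh s + v i o g * Real.sinh s) :=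
          Finset.sum_le_sum fun o _ => Real.exp_mul_le_cosh_add_mul_sinh (hv i o g) s
      _ = (Fintype.card O : ℝ) * Real.cosh s := by
          rw [Finset.sum_add_distrib, ← Finset.sum_mul, h0, zero_mul, add_zero]
          simp
      _ ≤ (Fintype.card O : ℝ) * Real.exp (s ^ 2 / 2) :=
          mul_le_mul_of_nonneg_left (Real.cosh_le_exp_half_sq s) (Nat.cast_nonneg _)
  rw [e1]
  calc ∏ i, ∑ o, Real.exp (v i o g * s) ≤ ∏ _i : I, ((Fintype.card O : ℝ) *
        Real.exp (s ^ 2 / 2)) := Finset.prod_le_prod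
          (fun i _ => Finset.sum_nonneg fun o _ => (Real.exp_pos _).le) fun i _ => e2 i
    _ = _ := by
      rw [Finset.prod_const, Finset.card_univ, mul_pow, ← Real.exp_nat_mul]

theorem st_HO : ST_HO := by
  classical
  intro I O G _ _ _ _ _ v hv h0
  rcases isEmpty_or_nonempty I with hI | hI
  · refine ⟨fun i => (hI.false i).elim, fun g => ?_⟩
    simp
  have hN : (0 : ℝ) < Fintype.card I := by exact_mod_cast Fintype.card_pos
  have hO : (0 : ℝ) < Fintype.card O := by exact_mod_cast Fintype.card_pos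
  have hG : (1 : ℝ) ≤ Fintype.card G := by exact_mod_cast Fintype.card_pos
  obtain ⟨N, hNe⟩ : ∃ N : ℝ, N = Fintype.card I := ⟨_, rfl⟩
  obtain ⟨L, hL⟩ : ∃ L : ℝ, L = Real.log (2 * (Fintype.card G : ℝ)) := ⟨_, rfl⟩
  have hL0 : 0 < L := by rw [hL]; exact Real.log_pos (by linarith)
  have heL : Real.exp L = 2 * (Fintype.card G : ℝ) := by
    rw [hL, Real.exp_log (by linarith)]
  rw [← hNe] at hN
  obtain ⟨s, hs⟩ : ∃ s : ℝ, s = Real.sqrt (2 * L / N) := ⟨_, rfl⟩
  have hs0 : 0 < s := by rw [hs]; exact Real.sqrt_pos.2 (by positivity)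
  have hs2 : N * s ^ 2 = 2 * L := by
    rw [hs, Real.sq_sqrt (by positivity)]
    field_simp
  have key : ∃ ω ∈ (Finset.univ : Finset (I → O)),
      ∑ g, (Real.exp (s * ∑ i, v i (ω i) g) + Real.exp (-s * ∑ i, v i (ω i) g)) ≤
        Real.exp L * Real.exp (N * (s ^ 2 / 2)) := by
    refine Finset.exists_le_of_sum_le Finset.univ_nonempty ?_
    rw [Finset.sum_comm]
    calc ∑ g, ∑ ω : I → O, (Real.exp (s * ∑ i, v i (ω i) g) + Real.exp (-s * ∑ i, v i (ω i) g))
        ≤ ∑ _g : G, (2 * ((Fintype.card O : ℝ) ^ Fintype.card I *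
            Real.exp (N * (s ^ 2 / 2)))) := by
          refine Finset.sum_le_sum fun g _ => ?_
          rw [Finset.sum_add_distrib, two_mul]
          have a1 := ho_moment I O G v hv h0 s g
          have a2 := ho_moment I O G v hv h0 (-s) g
          rw [neg_sq] at a2
          rw [hNe]
          exact add_le_add a1 a2
      _ = ∑ _ω : I → O, Real.exp L * Real.exp (N * (s ^ 2 / 2)) := by
          rw [Finset.sum_const, Finset.sum_const, Finset.card_univ, Finset.card_univ,
            Fintype.card_fun, heL]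
          simp only [nsmul_eq_mul, Nat.cast_pow]
          ring
  obtain ⟨ω, -, hω⟩ := key
  refine ⟨ω, fun g => ?_⟩
  have h1 : ∀ t : ℝ, t = s ∨ t = -s → t * ∑ i, v i (ω i) g ≤ 2 * L := by
    intro t ht
    have h2 : Real.exp (t * ∑ i, v i (ω i) g) ≤ Real.exp L * Real.exp (N * (s ^ 2 / 2)) := by
      refine le_trans ?_ hω
      refine le_trans ?_ (Finset.single_le_sum (f := fun g =>
        Real.exp (s * ∑ i, v i (ω i) g) + Real.exp (-s * ∑ i, v i (ω i) g))
        (fun g _ => by positivity) (Finset.mem_univ g))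
      rcases ht with rfl | rfl
      · linarith [Real.exp_pos (-t * ∑ i, v i (ω i) g)]
      · linarith [Real.exp_pos (s * ∑ i, v i (ω i) g)]
    rw [← Real.exp_add, Real.exp_le_exp] at h2
    linarith
  have h2 : s * |∑ i, v i (ω i) g| ≤ 2 * L := by
    rcases abs_cases (∑ i, v i (ω i) g) with ⟨h, _⟩ | ⟨h, _⟩
    · rw [h]
      exact h1 s (Or.inl rfl)
    · rw [h]
      have := h1 (-s) (Or.inr rfl)
      linarith
  have h3 : |∑ i, v i (ω i) g| ≤ N * s := by
    by_contra h4
    push Not at h4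
    have := mul_lt_mul_of_pos_left h4 hs0
    nlinarith
  rw [← hNe, ← hL]
  refine h3.trans ?_
  have h5 : N * s ≤ 2 * Real.sqrt (N * L) := by
    have h6 : (N * s) ^ 2 ≤ (2 * Real.sqrt (N * L)) ^ 2 := by
      rw [mul_pow 2, Real.sq_sqrt (by positivity)]
      nlinarith [mul_pos hN hL0]
    exact (pow_le_pow_iff_left₀ (by positivity) (by positivity) (by norm_num)).1 h6
  exact h5

end Pool.Agent.Helper73.BQ
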