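import Pool.Agent.Helper31.BQ.Stmts2

/-!
# Sheet BQ, row HP: finite-dimensional projections of a separable Hilbert space
-/

set_option autoImplicit false

namespace Pool.Agent.Helper73.BQ

open Filter Topology Pool.Agent.Helper31.BQ

theorem st_HP : ST_HP := by
  classical
  intro H _ _ _ _
  set u : ℕ → H := TopologicalSpace.denseSeq H with hu
  set U : ℕ → Submodule ℝ H := fun n => Submodule.span ℝ (u '' (Finset.range n : Set ℕ)) with hU
  have hfd : ∀ n, FiniteDimensional ℝ (U n) := fun n =>
    FiniteDimensional.span_of_finite ℝ ((Finset.range n).finite_toSet.image u)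
  have hmono : Monotone U := by
    intro a b hab
    refine Submodule.span_mono (Set.image_mono ?_)
    intro i hi
    simp only [Finset.coe_range, Set.mem_Iio] at hi ⊢
    omega
  have hmem : ∀ n x, (U n).starProjection x ∈ U n := fun n x =>
    Submodule.starProjection_apply_mem _ _
  refine ⟨fun n => (U n).starProjection, fun n => ?_, fun n => Submodule.starProjection_norm_le _,
    fun n x y => Submodule.inner_starProjection_left_eq_right _ _ _, fun n m x hnm => ?_,
    fun n m x hnm => ?_, fun x => ?_⟩
  · have : LinearMap.range ((U n).starProjection : H →ₗ[ℝ] H) ≤ U n := by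
      rintro _ ⟨x, rfl⟩
      exact hmem n x
    exact Submodule.finiteDimensional_of_le this
  · have h1 : x - (U m).starProjection x ∈ (U m)ᗮ := Submodule.sub_starProjection_mem_orthogonal x
    have h2 : x - (U m).starProjection x ∈ (U n)ᗮ := Submodule.orthogonal_le (hmono hnm) h1
    have h3 : (U n).starProjection (x - (U m).starProjection x) = 0 :=
      (Submodule.starProjection_apply_eq_zero_iff _).2 h2
    rw [map_sub, sub_eq_zero] at h3
    exact h3.symm
  · exact Submodule.starProjection_eq_self_iff.2 (hmono hnm (hmem n x))
  · refine Submodule.starProjection_tendsto_self U hmono x ?_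
    intro y _
    have h1 : Dense (Set.range u) := TopologicalSpace.denseRange_denseSeq H
    have h2 : Set.range u ⊆ ((⨆ n, U n : Submodule ℝ H) : Set H) := by
      rintro _ ⟨i, rfl⟩
      have : u i ∈ U (i + 1) := Submodule.subset_span ⟨i, by simp, rfl⟩
      exact (le_iSup U (i + 1)) this
    exact closure_mono h2 (h1 y)

end Pool.Agent.Helper73.BQ
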