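import Pool.Agent.Helper31.BQ.Stmts3

/-!
# Sheet BE, row YB: the space of a null sequence
-/

set_option autoImplicit false

universe u

namespace Pool.Agent.Helper73.BQ

open Filter Topology Pool.Agent.Helper31.BQ

/-- summable real families -/
abbrev L1 (I : Type u) : Type u := lp (fun _ : I => ℝ) 1

section
variable {I : Type u} {E : Type u} [NormedAddCommGroup E] [NormedSpace ℝ E]

theorem l1s (a : L1 I) : Summable fun i => |a i| := by
  simpa using (lp.memℓp a).summable (by simp)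

theorem l1n (a : L1 I) : ‖a‖ = ∑' i, |a i| := by simp [lp.norm_eq_tsum_rpow]

variable [CompleteSpace E] (u : I → E) (B : ℝ) (hB : ∀ i, ‖u i‖ ≤ B)

include hB in
theorem qs (a : L1 I) : Summable fun i => a i • u i :=
  Summable.of_norm_bounded (g := fun i => |a i| * B) ((l1s a).mul_right B) fun i => by
    rw [norm_smul]
    exact mul_le_mul_of_nonneg_left (hB i) (abs_nonneg _)

/-- the map `a ↦ ∑ a i • u i` -/
noncomputable def qq : L1 I →L[ℝ] E :=
  LinearMap.mkContinuous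
    { toFun := fun a => ∑' i, a i • u i
      map_add' := fun a b => by
        rw [← Summable.tsum_add (qs u B hB a) (qs u B hB b)]
        refine tsum_congr fun i => ?_
        rw [lp.coeFn_add, Pi.add_apply, add_smul]
      map_smul' := fun c a => by
        rw [RingHom.id_apply, ← Summable.tsum_const_smul c (qs u B hB a)]
        refine tsum_congr fun i => ?_
        rw [lp.coeFn_smul, Pi.smul_apply, smul_smul, smul_eq_mul] } B fun a => by
    change ‖∑' i, a i • u i‖ ≤ B * ‖a‖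
    rw [l1n, mul_comm, ← tsum_mul_right]
    refine tsum_of_norm_bounded ((l1s a).mul_right B).hasSum fun i => ?_
    rw [norm_smul]
    exact mul_le_mul_of_nonneg_left (hB i) (abs_nonneg _)

theorem qq_apply (a : L1 I) : qq u B hB a = ∑' i, a i • u i := rfl

theorem qk (F : Finset I) (ε : ℝ) (hF : ∀ i ∉ F, ‖u i‖ ≤ ε) (a : L1 I) (hε : 0 ≤ ε) :
    ‖qq u B hB a‖ ≤ (∑ i ∈ F, |a i| * B) + ε * ‖a‖ := by
  classical
  rw [qq_apply, l1n, mul_comm, ← tsum_mul_right]
  have h1 : HasSum (fun i => if i ∈ F then |a i| * B else 0) (∑ i ∈ F, |a i| * B) := by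
    have h0 : HasSum (fun i => if i ∈ F then |a i| * B else 0)
        (∑ i ∈ F, if i ∈ F then |a i| * B else 0) :=
      hasSum_sum_of_ne_finset_zero (fun i hi => if_neg hi)
    rwa [Finset.sum_congr rfl fun i hi => if_pos hi] at h0
  refine tsum_of_norm_bounded (h1.add ((l1s a).mul_right ε).hasSum) fun i => ?_
  rw [norm_smul]
  by_cases hi : i ∈ F
  · rw [if_pos hi]
    have := mul_le_mul_of_nonneg_left (hB i) (abs_nonneg (a i))
    have h2 : 0 ≤ |a i| * ε := mul_nonneg (abs_nonneg _) hε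
    rw [Real.norm_eq_abs]
    linarith
  · rw [if_neg hi, zero_add]
    exact mul_le_mul_of_nonneg_left (hF i hi) (abs_nonneg _)

theorem qc [Countable I] (hu : ∀ ε : ℝ, 0 < ε → ∃ F : Finset I, ∀ i ∉ F, ‖u i‖ ≤ ε)
    (a : ℕ → L1 I) (C : ℝ) (ha : ∀ k, ‖a k‖ ≤ C) : ∃ φ : ℕ → ℕ, StrictMono φ ∧ ∃ b : L1 I,
      Tendsto (fun k => (a (φ k) : I → ℝ)) atTop (𝓝 (b : I → ℝ)) ∧
      Tendsto (fun k => qq u B hB (a (φ k))) atTop (𝓝 (qq u B hB b)) := by
  have hK : IsCompact (Set.univ.pi fun _ : I => Set.Icc (-C) C) :=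
    isCompact_univ_pi fun _ => isCompact_Icc
  have hin : ∀ k, (a k : I → ℝ) ∈ Set.univ.pi fun _ : I => Set.Icc (-C) C := fun k i _ =>
    abs_le.1 ((lp.norm_apply_le_norm one_ne_zero (a k) i).trans (ha k))
  obtain ⟨b₀, -, φ, hφ, hb⟩ := hK.tendsto_subseq hin
  have hbd : Bornology.IsBounded (Set.range fun k => a (φ k)) := by
    rw [isBounded_iff_forall_norm_le]
    exact ⟨C, by rintro _ ⟨k, rfl⟩; exact ha _⟩
  have hmem : Memℓp b₀ 1 := lp.memℓp_of_tendsto (F := fun k => a (φ k)) hbd hb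
  refine ⟨φ, hφ, ⟨b₀, hmem⟩, hb, ?_⟩
  set b : L1 I := ⟨b₀, hmem⟩ with hbdef
  have hbn : ‖b‖ ≤ C := lp.norm_le_of_tendsto (F := fun k => a (φ k))
    (Eventually.of_forall fun k => ha _) hb
  have hC : 0 ≤ C := (norm_nonneg _).trans hbn
  rw [Metric.tendsto_atTop]
  intro ε hε
  obtain ⟨F, hF⟩ := hu (ε / (4 * (C + 1))) (by positivity)
  have h1 : Tendsto (fun k => ∑ i ∈ F, |(a (φ k) - b) i| * B) atTop (𝓝 0) := by
    have h2 : Tendsto (fun k => ∑ i ∈ F, |(a (φ k) - b) i| * B) atTop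
        (𝓝 (∑ i ∈ F, |(0 : ℝ)| * B)) := by
      refine tendsto_finsetSum _ fun i _ => ?_
      have h3 : Tendsto (fun k => (a (φ k) - b) i) atTop (𝓝 0) := by
        have h4 := (tendsto_pi_nhds.1 hb i).sub_const (b₀ i)
        rw [sub_self] at h4
        exact h4
      exact (h3.abs).mul_const B
    simpa using h2
  obtain ⟨N, hN⟩ := (h1.eventually (gt_mem_nhds (half_pos hε))).exists_forall_of_atTop
  refine ⟨N, fun k hk => ?_⟩
  rw [dist_eq_norm, ← map_sub]
  have h5 := qk u B hB F _ hF (a (φ k) - b) (by positivity)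
  have h6 : ‖a (φ k) - b‖ ≤ 2 * C := (norm_sub_le _ _).trans (by linarith [ha (φ k)])
  have h7 : ε / (4 * (C + 1)) * ‖a (φ k) - b‖ ≤ ε / 2 := by
    calc ε / (4 * (C + 1)) * ‖a (φ k) - b‖ ≤ ε / (4 * (C + 1)) * (2 * C) :=
          mul_le_mul_of_nonneg_left h6 (by positivity)
      _ ≤ ε / 2 := by
          rw [div_mul_eq_mul_div, div_le_div_iff₀ (by positivity) (by positivity)]
          nlinarith
  have h8 := hN k hk
  linarith

end

theorem yb1 (E : Type u) [NormedAddCommGroup E] [NormedSpace ℝ E] [CompleteSpace E]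
    (x : ℕ → E) (hx : Tendsto x atTop (𝓝 0)) :
    ∃ (Y : Type u) (_ : NormedAddCommGroup Y) (_ : NormedSpace ℝ Y) (j : Y →L[ℝ] E) (y : ℕ → Y)
      (w : ℕ → E), CompleteSpace Y ∧ Function.Injective j ∧ Tendsto y atTop (𝓝 0) ∧
      (∀ n, j (y n) = x n) ∧ (∀ z, j z ∈ closure (Set.range w)) ∧
      ∀ (x : ℕ → Y) (C : ℝ), (∀ n, ‖x n‖ ≤ C) → ∃ φ : ℕ → ℕ, StrictMono φ ∧ ∃ z, ‖z‖ ≤ C ∧
        Tendsto (fun k => j (x (φ k))) atTop (𝓝 (j z)) := by
  classical
  -- the scale
  set t : ℕ → ℝ := fun n => Real.sqrt (‖x n‖ + 1 / ((n : ℝ) + 1)) with ht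
  have ht0 : ∀ n, 0 < t n := fun n => Real.sqrt_pos.2 (by positivity)
  have htt : Tendsto t atTop (𝓝 0) := by
    have h1 : Tendsto (fun n : ℕ => ‖x n‖ + 1 / ((n : ℝ) + 1)) atTop (𝓝 0) := by
      have := hx.norm.add (tendsto_one_div_add_atTop_nhds_zero_nat (𝕜 := ℝ))
      simpa using this
    have h2 := (Real.continuous_sqrt.tendsto 0).comp h1
    rw [Real.sqrt_zero] at h2
    exact h2
  set u : ULift.{u} ℕ → E := fun i => (t i.down)⁻¹ • x i.down with hu
  have hun : ∀ i : ULift.{u} ℕ, ‖u i‖ ≤ t i.down := by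
    intro i
    have h1 : ‖x i.down‖ ≤ t i.down ^ 2 := by
      rw [ht]
      simp only
      rw [Real.sq_sqrt (by positivity)]
      have : (0 : ℝ) ≤ 1 / ((i.down : ℝ) + 1) := by positivity
      linarith
    rw [hu]
    simp only
    rw [norm_smul, norm_inv, Real.norm_eq_abs, abs_of_pos (ht0 _), inv_mul_le_iff₀ (ht0 _)]
    nlinarith
  obtain ⟨B, hB⟩ : ∃ B : ℝ, ∀ n, t n ≤ B := by
    obtain ⟨B, hB⟩ := htt.bddAbove_range
    exact ⟨B, fun n => hB ⟨n, rfl⟩⟩
  have huB : ∀ i, ‖u i‖ ≤ B := fun i => (hun i).trans (hB _)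
  have huF : ∀ ε : ℝ, 0 < ε → ∃ F : Finset (ULift.{u} ℕ), ∀ i ∉ F, ‖u i‖ ≤ ε := by
    intro ε hε
    obtain ⟨N, hN⟩ := (htt.eventually (ge_mem_nhds hε)).exists_forall_of_atTop
    refine ⟨(Finset.range N).image ULift.up, fun i hi => (hun i).trans (hN _ ?_)⟩
    by_contra h
    exact hi (Finset.mem_image.2 ⟨i.down, Finset.mem_range.2 (not_le.1 h), rfl⟩)
  set q := qq u B huB with hq
  have hcl : IsClosed ((q.ker : Submodule ℝ (L1 (ULift.{u} ℕ))) :
    Set (L1 (ULift.{u} ℕ))) := q.isClosed_ker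
  set j : (L1 (ULift.{u} ℕ) ⧸ q.ker) →L[ℝ] E := q.ker.liftQL q le_rfl with hj
  have hjm : ∀ a, j (Submodule.Quotient.mk a) = q a := fun a => rfl
  have hji : Function.Injective j := by
    have : LinearMap.ker (q.ker.liftQ q.toLinearMap le_rfl) = ⊥ :=
      Submodule.ker_liftQ_eq_bot _ _ _ le_rfl
    exact LinearMap.ker_eq_bot.1 this
  have hsep : TopologicalSpace.IsSeparable (closure
      ((Submodule.span ℝ (Set.range u) : Submodule ℝ E) : Set E)) :=
    ((Set.countable_range u).isSeparable.span (R := ℝ)).closure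
  obtain ⟨c, hc, hsub⟩ := hsep
  have hcn : c.Nonempty := by
    rw [← closure_nonempty_iff]
    exact ⟨0, hsub (subset_closure (Submodule.zero_mem _))⟩
  obtain ⟨w, rfl⟩ := hc.exists_eq_range hcn
  refine ⟨L1 (ULift.{u} ℕ) ⧸ q.ker, inferInstance, inferInstance, j,
    fun n => Submodule.Quotient.mk (lp.single 1 (ULift.up n) (t n)), w, inferInstance, hji,
    ?_, ?_, ?_, ?_⟩
  · refine squeeze_zero_norm (fun n => ?_) htt
    refine (Submodule.Quotient.norm_mk_le _ _).trans (le_of_eq ?_)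
    rw [lp.norm_single one_pos, Real.norm_eq_abs, abs_of_pos (ht0 n)]
  · intro n
    rw [hjm, hq, qq_apply, tsum_eq_single (ULift.up n)]
    · rw [lp.single_apply_self, hu]
      simp only
      rw [smul_smul, mul_inv_cancel₀ (ht0 n).ne', one_smul]
    · intro i hi
      rw [lp.single_apply_ne _ _ _ hi, zero_smul]
  · intro z
    obtain ⟨a, rfl⟩ := Submodule.Quotient.mk_surjective _ z
    refine hsub ?_
    rw [hjm]
    refine isClosed_closure.mem_of_tendsto (qs u B huB a).hasSum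
      (Eventually.of_forall fun s => subset_closure ?_)
    exact Submodule.sum_mem _ fun i _ => Submodule.smul_mem _ _ (Submodule.subset_span ⟨i, rfl⟩)
  · intro x C hC
    have hl : ∀ n : ℕ, ∃ a : L1 (ULift.{u} ℕ), Submodule.Quotient.mk a = x n ∧
        ‖a‖ < ‖x n‖ + 1 / ((n : ℝ) + 1) := fun n =>
      Submodule.Quotient.norm_mk_lt (x n) (by positivity)
    choose a ha1 ha2 using hl
    have hbd : ∀ n, ‖a n‖ ≤ C + 1 := by
      intro n
      have h1 : 1 / ((n : ℝ) + 1) ≤ 1 := by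
        rw [div_le_one (by positivity)]
        linarith [(Nat.cast_nonneg n : (0 : ℝ) ≤ n)]
      linarith [ha2 n, hC n]
    obtain ⟨φ, hφ, b, hb1, hb2⟩ := qc u B huB huF a (C + 1) hbd
    refine ⟨φ, hφ, Submodule.Quotient.mk b, ?_, ?_⟩
    · refine (Submodule.Quotient.norm_mk_le _ _).trans ?_
      refine le_of_forall_pos_le_add fun ε hε => ?_
      refine lp.norm_le_of_tendsto (F := fun k => a (φ k)) (l := atTop) ?_ hb1
      have h2 := (tendsto_one_div_add_atTop_nhds_zero_nat (𝕜 := ℝ)).comp hφ.tendsto_atTop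
      filter_upwards [h2.eventually (ge_mem_nhds hε)] with k hk
      have h3 := ha2 (φ k)
      have h4 := hC (φ k)
      simp only [Function.comp] at hk
      linarith
    · have h5 : ∀ k, j (x (φ k)) = q (a (φ k)) := fun k => by rw [← ha1, hjm]
      simp only [h5, hjm]
      exact hb2

theorem yb2 {Y E : Type u} [NormedAddCommGroup Y] [NormedSpace ℝ Y] [NormedAddCommGroup E]
    [NormedSpace ℝ E] (j : Y →L[ℝ] E) (hj : Function.Injective j) (w : ℕ → E)
    (hw : ∀ z, j z ∈ closure (Set.range w))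
    (hc : ∀ (x : ℕ → Y) (C : ℝ), (∀ n, ‖x n‖ ≤ C) → ∃ φ : ℕ → ℕ, StrictMono φ ∧ ∃ z, ‖z‖ ≤ C ∧
        Tendsto (fun k => j (x (φ k))) atTop (𝓝 (j z))) :
    ∃ M : ℕ → Submodule ℝ Y, Antitone M ∧ PP Y M ∧ JC M j ∧
      ∀ T ∈ VM E M, ∃ T' ∈ FR E, ∀ z, (T : Y →L[ℝ] E) z = T' (j z) := by
  classical
  have hd : ∀ n, ∃ g : StrongDual ℝ E, ‖g‖ ≤ 1 ∧ g (w n) = ‖w n‖ := fun n => by
    obtain ⟨g, h1, h2⟩ := exists_dual_vector'' ℝ (w n)
    exact ⟨g, h1, h2⟩
  choose d hd1 hd2 using hd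
  have hsep : ∀ z : Y, (∀ n, d n (j z) = 0) → z = 0 := by
    intro z hz
    have h1 : ‖j z‖ ≤ 0 := by
      refine le_of_forall_pos_le_add fun ε hε => ?_
      obtain ⟨n, hn⟩ := Metric.mem_closure_range_iff.1 (hw z) (ε / 2) (half_pos hε)
      rw [dist_eq_norm] at hn
      have h2 : ‖w n‖ ≤ ‖w n - j z‖ := by
        have h3 : ‖w n‖ = d n (w n - j z) := by rw [map_sub, hz n, sub_zero, hd2]
        rw [h3]
        exact (le_abs_self _).trans (((d n).le_of_opNorm_le (hd1 n) _).trans (one_mul _).le)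
      have h4 : ‖j z‖ ≤ ‖j z - w n‖ + ‖w n‖ := by
        have := norm_add_le (j z - w n) (w n)
        rwa [sub_add_cancel] at this
      rw [norm_sub_rev] at h2
      linarith
    have h5 : j z = 0 := norm_le_zero_iff.1 h1
    exact hj (by rw [h5, map_zero])
  set D : ∀ m : ℕ, Y →L[ℝ] (Fin m → ℝ) := fun m =>
    ContinuousLinearMap.pi fun i : Fin m => (d i).comp j with hD
  have hDa : ∀ m (i : Fin m) y, D m y i = d i (j y) := fun m i y => rfl
  set M : ℕ → Submodule ℝ Y := fun m => (D m).ker with hM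
  have hmem : ∀ m y, y ∈ M m ↔ ∀ i < m, d i (j y) = 0 := by
    intro m y
    rw [hM]
    simp only [LinearMap.mem_ker]
    constructor
    · intro h i hi
      have := congrFun h ⟨i, hi⟩
      exact this
    · intro h
      funext i
      exact h i i.2
  have hinj : ∀ m, Function.Injective ((M m).liftQL (D m) le_rfl) := by
    intro m
    have : LinearMap.ker ((M m).liftQ (D m).toLinearMap le_rfl) = ⊥ :=
      Submodule.ker_liftQ_eq_bot _ _ _ le_rfl
    exact LinearMap.ker_eq_bot.1 this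
  -- limits of the functionals
  have hlim : ∀ (x : ℕ → Y) (m : ℕ) (v : Y ⧸ M m),
      Tendsto (fun k => (M m).mkQ (x k)) atTop (𝓝 v) → ∀ i : Fin m,
      Tendsto (fun k => d i (j (x k))) atTop (𝓝 ((M m).liftQL (D m) le_rfl v i)) := by
    intro x m v hv i
    have h1 := (((M m).liftQL (D m) le_rfl).continuous.tendsto v).comp hv
    have h2 := (tendsto_pi_nhds.1 h1) i
    exact h2
  refine ⟨M, ?_, ⟨?_, ?_, ?_, ?_⟩, ?_, ?_⟩
  · intro a b hab y hy
    rw [hmem] at hy ⊢
    exact fun i hi => hy i (hi.trans_le hab)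
  · intro n
    exact (D n).isClosed_ker
  · intro n
    exact FiniteDimensional.of_injective ((M n).liftQL (D n) le_rfl).toLinearMap (hinj n)
  · intro x ε hε
    by_contra hcon
    push Not at hcon
    choose y hy1 hy2 using hcon
    obtain ⟨φ, hφ, z, hz, hlz⟩ := hc y (‖x‖ - ε) fun n => (hy2 n).le
    have h1 : ∀ i, d i (j z) = d i (j x) := by
      intro i
      have h2 : Tendsto (fun k => d i (j (y (φ k)))) atTop (𝓝 (d i (j z))) :=
        ((d i).continuous.tendsto _).comp hlz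
      have h3 : Tendsto (fun k => d i (j (y (φ k)))) atTop (𝓝 (d i (j x))) := by
        refine tendsto_const_nhds.congr' ?_
        filter_upwards [eventually_gt_atTop i] with k hk
        have h4 := (hmem _ _).1 (hy1 (φ k)) i (hk.trans_le (hφ.id_le k))
        rw [map_sub, map_sub, sub_eq_zero] at h4
        exact h4
      exact tendsto_nhds_unique h2 h3
    have h5 : z - x = 0 := hsep _ fun n => by rw [map_sub, map_sub, h1, sub_self]
    rw [sub_eq_zero.1 h5] at hz
    linarith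
  · intro x C hx hv
    obtain ⟨φ, hφ, z, hz, hlz⟩ := hc x C hx
    refine ⟨z, fun m => ?_⟩
    obtain ⟨v, hv⟩ := hv m
    have h1 : (M m).mkQ z = v := by
      refine hinj m ?_
      funext i
      have h2 := (hlim x m v hv i).comp hφ.tendsto_atTop
      have h3 : Tendsto (fun k => d i (j (x (φ k)))) atTop (𝓝 (d i (j z))) :=
        ((d i).continuous.tendsto _).comp hlz
      exact tendsto_nhds_unique h3 h2
    rw [h1]
    exact hv
  · intro x C y hx hxy
    refine tendsto_of_subseq_tendsto fun ns hns => ?_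
    obtain ⟨φ, hφ, z, hz, hlz⟩ := hc (fun k => x (ns k)) C fun k => hx _
    refine ⟨φ, ?_⟩
    have h1 : z - y = 0 := by
      refine hsep _ fun i => ?_
      have h2 := ((hlim x (i + 1) _ (hxy (i + 1)) ⟨i, i.lt_succ_self⟩).comp hns).comp
        hφ.tendsto_atTop
      have h3 : Tendsto (fun k => d i (j (x (ns (φ k))))) atTop (𝓝 (d i (j z))) :=
        ((d i).continuous.tendsto _).comp hlz
      have h4 : d i (j z) = d i (j y) := tendsto_nhds_unique h3 h2
      rw [map_sub, map_sub, h4, sub_self]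
    rw [sub_eq_zero.1 h1] at hlz
    exact hlz
  · rintro T ⟨m, hm⟩
    obtain ⟨G, hG⟩ := LinearMap.exists_leftInverse_of_injective
      ((M m).liftQL (D m) le_rfl).toLinearMap (LinearMap.ker_eq_bot.2 (hinj m))
    have hTk : M m ≤ LinearMap.ker T.toLinearMap := fun y hy => hm y hy
    set S : (Fin m → ℝ) →ₗ[ℝ] E := ((M m).liftQ T.toLinearMap hTk) ∘ₗ G with hS
    refine ⟨(LinearMap.toContinuousLinearMap S).comp
      (ContinuousLinearMap.pi fun i : Fin m => d i), ?_, fun z => ?_⟩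
    · have h1 : LinearMap.range (((LinearMap.toContinuousLinearMap S).comp
          (ContinuousLinearMap.pi fun i : Fin m => d i) : E →L[ℝ] E) : E →ₗ[ℝ] E) ≤
          LinearMap.range S := by
        rintro _ ⟨e, rfl⟩
        exact ⟨_, rfl⟩
      exact Submodule.finiteDimensional_of_le h1
    · have h2 := LinearMap.congr_fun hG ((M m).mkQ z)
      change T z = ((M m).liftQ T.toLinearMap hTk) (G (D m z))
      have h3 : G (D m z) = (M m).mkQ z := h2
      rw [h3]
      rfl

theorem st_YB : ST_YB.{u} := by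
  intro E _ _ _ x hx
  obtain ⟨Y, iY, sY, j, y, w, hcY, hji, hy, hjy, hw, hc⟩ := yb1 E x hx
  obtain ⟨M, h1, h2, h3, h4⟩ := yb2 j hji w hw hc
  exact ⟨Y, iY, sY, M, j, y, hcY, h1, h2, h3, hy, hjy, h4⟩

end Pool.Agent.Helper73.BQ
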